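import Pool.Agent.U327.BG.FinM

/-!
# The momentum distribution on the scale of the question tends to the point mass at zero

`N` bosons on the torus of side `L` in dimension `n ≥ 3` with the Hamiltonian of the problem
(`n = 3`, `μ = 1 / 2`),

`H = ∑_i (-μ Δ_i) + ∑_{i<j} v(|x_i - x_j|)`,

where `v` has values in `[0, ∞]`, is arbitrary at distances up to `R₀` (hard core) and integrable
outside the ball of radius `R₀`.  The question concerns the momenta `|k| = κ (8 π ρ a)^(1/2)`.  For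
all `ε, a > 0` and small `ρ`, uniformly in `L ≥ ρ^(-1/2)` (in particular in the thermodynamic limit),
at most `ε N` particles of the ground state, and of all states with nearly the same energy, have a
momentum `k` with `|k_c| ≥ a ρ^(1/2)` for some `c`.  So the momentum distribution, rescaled to the
momenta `k / ρ^(1/2)` of the question and with total mass one, tends to the point mass at zero.
-/

set_option autoImplicit false

open MeasureTheory
open scoped ENNReal

namespace Pool.Agent.Results.MP_dec75e_mp.RescaledLimit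

open Pool.Agent.W761.CB Pool.Agent.W761.CC Pool.Agent.Y656 Pool.Agent.U327.BG

/-- **The rescaled momentum distribution.**  `n ≥ 3`, `μ > 0`, and `v` is a measurable pair potential
with values in `[0, ∞]`, not zero almost everywhere, integrable outside the ball of radius `R₀` and
arbitrary inside.  For all `ε, a > 0` there are `ρ₀, δ > 0` such that for all `ρ ∈ (0, ρ₀]`, all
`L ≥ ρ^(-1/2)`, all `N` with `ρ / 2 ≤ N / L^n ≤ ρ` and all symmetric wave functions `Ψ` of `N`
particles with norm one which minimise the energy up to `δ ρ^2 L^n` (for instance the ground state),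
at most `ε N` particles have a momentum `2 π k / L` with `|2 π k_c / L| ≥ a ρ^(1/2)` for some `c`. -/
theorem result (n : ℕ) (μ R₀ : ℝ) (hn : 3 ≤ n) (hμ : 0 < μ) (v : ℝ → ℝ≥0∞) (hv : Measurable v)
    (hvt : ∫⁻ z in {z : Fin n → ℝ | R₀ < el z}, v (el z) ≠ ⊤)
    (hv0 : ∫⁻ z : Fin n → ℝ, v (el z) ≠ 0) (ε a : ℝ) (hε : 0 < ε) (ha : 0 < a) :
    ∃ ρ₀ δ : ℝ, 0 < ρ₀ ∧ 0 < δ ∧ ∀ ρ : ℝ, 0 < ρ → ρ ≤ ρ₀ →
      ∀ (L : ℝ) [Fact (0 < L)], ρ ^ (-(1 / 2) : ℝ) ≤ L →
      ∀ N : ℕ, ρ / 2 * L ^ n ≤ N → (N : ℝ) ≤ ρ * L ^ n →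
      ∀ Ψ : (Fin N → Tor n L) → ℂ, IsWf2 Ψ →
        (∀ Φ : (Fin N → Tor n L) → ℂ, IsWf Φ → enN (ENNReal.ofReal μ) (fun _ => 0) v Ψ ≤
          enN (ENNReal.ofReal μ) (fun _ => 0) v Φ + ENNReal.ofReal (δ * ρ ^ 2 * L ^ n)) →
        ∑' k : {k : Fin n → ℤ // ∃ c, a * ρ ^ (1 / 2 : ℝ) ≤ |2 * Real.pi * k c / L|},
          momN Ψ k.1 ≤ ENNReal.ofReal (ε * N) :=
  momG n μ R₀ v hn hμ hv hvt hv0 ε a hε ha

end Pool.Agent.Results.MP_dec75e_mp.RescaledLimit
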